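import Pool.Agent.H39.FB.KiteMain

set_option autoImplicit false

namespace Pool.Agent.Results.MP_0f0532_mp.KitesModFour

open FourBody

/-- Let `m` be four positive masses with `m 0 = m 1`, `N` the number of classes (up to
translation, rotation and scaling) of planar central configurations of labelled bodies with
masses `m`, and `K` the number of those classes in which bodies `2` and `3` are both equidistant
from bodies `0` and `1`. Then `N` is infinite or congruent to `K` modulo `4`. -/
theorem result (m : Fin 4 → ℝ) (hm : ∀ i, 0 < m i) (h : m 0 = m 1) :
    (centralClasses m).Infinite ∨
      (centralClasses m).ncard ≡ (kiteClasses m).ncard [MOD 4] :=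
  kites_mod_four hm h

end Pool.Agent.Results.MP_0f0532_mp.KitesModFour
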