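import Pool.Agent.H39.FB.Unify

set_option autoImplicit false

namespace Pool.Agent.Results.MP_0f0532_mp.MassSymmetry

open FourBody

/-- Let `m` be four positive masses, `N` the number of classes (up to translation, rotation and
scaling) of planar central configurations of labelled bodies with masses `m`, and `s` the number
of permutations of the bodies which preserve the masses. Then `N` is infinite or congruent to `2`
modulo `s`. -/
theorem result (m : Fin 4 → ℝ) (hm : ∀ i, 0 < m i) :
    (centralClasses m).Infinite ∨
      (centralClasses m).ncard ≡ 2
        [MOD Nat.card {σ : Equiv.Perm (Fin 4) // ∀ i, m (σ i) = m i}] :=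
  unify hm

end Pool.Agent.Results.MP_0f0532_mp.MassSymmetry
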